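import Pool.Agent.H75.ERG.Targets

/-! C_XMS: measurability of the mollified system. -/

set_option autoImplicit false

namespace Pool.Agent.H37.EG

open MeasureTheory Set Metric Filter Topology Pool.Agent.H93.BL
open Pool.Agent.H93.EN (av md rf chi gchi Bd Ml Nl Inv Agr sg VV Chart LS Phi)
open Pool.Agent.H93.EG (InvG Sm gN hN nrm)
open Pool.Agent.H75.ERG

theorem XMS_glue {β : Type} [MeasurableSpace β] (Ω : Set ℂ) (hΩ : IsOpen Ω)
    (g : ℂ → ℂ → ℂ → β) (c : β) (hm : ∀ x, Measurable (Function.uncurry (g x)))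
    (hout : ∀ x, x ∉ Ω → ∀ w, g x x w = c)
    (hloc : ∀ x₀ ∈ Ω, ∃ s > (0 : ℝ), ∀ x ∈ ball x₀ s, x ∈ Ω ∧ g x x = g x₀ x) :
    Measurable (Function.uncurry fun x => g x x) := by
  choose! s hs0 hs using hloc
  obtain ⟨T, hTc, hT⟩ := TopologicalSpace.isOpen_iUnion_countable
    (fun x : Ω => ball (x : ℂ) (s x)) (fun _ => isOpen_ball)
  intro S hS
  have key : (Function.uncurry fun x => g x x) ⁻¹' S =
      (⋃ x ∈ T, (ball (x : ℂ) (s x) ×ˢ (univ : Set ℂ)) ∩ Function.uncurry (g x) ⁻¹' S) ∪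
        ((Ωᶜ ×ˢ (univ : Set ℂ)) ∩ {_p | c ∈ S}) := by
    ext ⟨x, w⟩
    constructor
    · intro h
      have h' : g x x w ∈ S := h
      by_cases hx : x ∈ Ω
      · left
        have h1 : x ∈ ⋃ y : Ω, ball (y : ℂ) (s y) :=
          mem_iUnion.2 ⟨⟨x, hx⟩, mem_ball_self (hs0 x hx)⟩
        rw [← hT] at h1
        obtain ⟨y, hy, hxy⟩ := mem_iUnion₂.1 h1
        refine mem_iUnion₂.2 ⟨y, hy, ⟨hxy, mem_univ _⟩, ?_⟩
        change g y x w ∈ S
        rw [← (hs y y.2 x hxy).2]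
        exact h'
      · right
        refine ⟨⟨hx, mem_univ _⟩, ?_⟩
        change c ∈ S
        rw [← hout x hx w]
        exact h'
    · rintro (h | h)
      · obtain ⟨y, hy, ⟨hxy, _⟩, h2⟩ := mem_iUnion₂.1 h
        change g x x w ∈ S
        rw [(hs y y.2 x hxy).2]
        exact h2
      · obtain ⟨⟨hx, _⟩, h2⟩ := h
        change g x x w ∈ S
        rw [hout x hx w]
        exact h2
  rw [key]
  refine MeasurableSet.union ?_ ?_
  · refine MeasurableSet.biUnion hTc fun x _ => ?_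
    exact (isOpen_ball.measurableSet.prod MeasurableSet.univ).inter (hm x hS)
  · refine (hΩ.measurableSet.compl.prod MeasurableSet.univ).inter ?_
    exact MeasurableSet.const _

theorem xms (hX : T_XIN) (hU0 : Pool.Agent.H93.EN.T_U0) (hU4 : Pool.Agent.H93.EN.T_U4) :
    T_XMS := by
  intro ι P κ hLS a δ ha hδ h16 G hG
  obtain ⟨hBd, hloc⟩ := hX ι P κ hLS a δ ha hδ h16 G hG
  obtain ⟨C, hC, hU0⟩ := hU0
  have hl : ∀ x₀ ∈ P.Ω, ∃ s > (0 : ℝ), ∀ x ∈ ball x₀ s, x ∈ P.Ω ∧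
      Ml (XG P κ a G x) δ x = Ml (XG P κ a G x₀) δ x ∧
      Nl (XG P κ a G x) δ x = Nl (XG P κ a G x₀) δ x := by
    intro x₀ hx₀
    obtain ⟨s, hs, h⟩ := hloc x₀ hx₀
    refine ⟨min s δ, lt_min hs hδ, fun x hx => ?_⟩
    obtain ⟨h1, h2⟩ := h x (ball_subset_ball (min_le_left _ _) hx)
    have h3 : dist x x₀ < δ := lt_of_lt_of_le (mem_ball.1 hx) (min_le_right _ _)
    obtain ⟨h4, h5, _⟩ := hU4 _ _ x₀ (2 * δ) h2 δ hδ x (by linarith)
    exact ⟨h1, h4, h5⟩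
  constructor
  · refine XMS_glue P.Ω P.isOpen (fun x => Ml (XG P κ a G x) δ) 0
      (fun x => (hU0 _ (hBd x) δ hδ).1) ?_ ?_
    · intro x hx w
      simp only [Ml, XG_out P κ a G x hx, mul_zero, integral_zero]
    · intro x₀ hx₀
      obtain ⟨s, hs, h⟩ := hl x₀ hx₀
      exact ⟨s, hs, fun x hx => ⟨(h x hx).1, (h x hx).2.1⟩⟩
  · refine XMS_glue P.Ω P.isOpen (fun x => Nl (XG P κ a G x) δ) 0
      (fun x => (hU0 _ (hBd x) δ hδ).2.1) ?_ ?_
    · intro x hx w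
      simp only [Nl, XG_out P κ a G x hx, Complex.ofReal_zero, mul_zero, integral_zero]
    · intro x₀ hx₀
      obtain ⟨s, hs, h⟩ := hl x₀ hx₀
      exact ⟨s, hs, fun x hx => ⟨(h x hx).1, (h x hx).2.2⟩⟩

end Pool.Agent.H37.EG
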