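import Pool.Agent.H75.ERG.Targets

/-! C_XSM: the mollified system. -/

set_option autoImplicit false

namespace Pool.Agent.H37.EG

open MeasureTheory Set Metric Filter Topology Pool.Agent.H93.BL
open Pool.Agent.H93.EN (av md rf chi gchi Bd Ml Nl Inv Agr sg VV Chart LS Phi)
open Pool.Agent.H93.EG (InvG Sm gN hN nrm)
open Pool.Agent.H75.ERG

theorem xsm (hI : T_XIN) (hS : T_XSD) (hM : T_XMS) (hU0 : Pool.Agent.H93.EN.T_U0)
    (hU4 : Pool.Agent.H93.EN.T_U4) : T_XSM := by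
  intro ι _ P κ hLS a δ ha hδ h16 G hG
  obtain ⟨hBd, hloc⟩ := hI ι P κ hLS a δ ha hδ h16 G hG
  obtain ⟨hM1, hM2⟩ := hM ι P κ hLS a δ ha hδ h16 G hG
  obtain ⟨C, hC, hU0⟩ := hU0
  refine ⟨hM1, hM2, ?_, ?_, ?_, ?_, ?_⟩
  · intro x w
    obtain ⟨_, _, _, h⟩ := hU0 _ (hBd x) δ hδ
    exact ⟨(h x w).1, (h x w).2.1⟩
  · refine ⟨C / δ, fun x w => ?_⟩
    obtain ⟨_, _, _, h⟩ := hU0 _ (hBd x) δ hδ
    exact (h x w).2.2.1
  · intro x₀ hx₀
    obtain ⟨s, hs, h⟩ := hloc x₀ hx₀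
    refine ⟨min s δ, lt_min hs hδ, XG P κ a G x₀, hBd x₀, fun x hx => ?_⟩
    obtain ⟨h1, h2⟩ := h x (ball_subset_ball (min_le_left _ _) hx)
    have h3 : dist x x₀ < δ := lt_of_lt_of_le (mem_ball.1 hx) (min_le_right _ _)
    obtain ⟨h4, h5, _⟩ := hU4 _ _ x₀ (2 * δ) h2 δ hδ x (by linarith)
    exact ⟨h1, h4, h5⟩
  · intro j x₀ hx₀
    obtain ⟨s, hs, Φ, hΦ, hsym, h⟩ := hS ι P κ hLS a δ ha hδ h16 G hG j x₀ hx₀
    refine ⟨min s δ, lt_min hs hδ, Φ, hΦ, ?_, fun x hx hx1 => ?_⟩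
    · filter_upwards [hsym] with y hy hy1
      refine hy (ball_subset_ball ?_ hy1)
      have := min_le_right s δ
      linarith
    · obtain ⟨h1, h2⟩ := h x (ball_subset_ball (min_le_left _ _) hx) hx1
      have h3 : dist x x₀ < δ := lt_of_lt_of_le (mem_ball.1 hx) (min_le_right _ _)
      obtain ⟨h4, h5, _⟩ := hU4 _ _ x₀ (2 * δ) h2 δ hδ x (by linarith)
      exact ⟨h1, h4, h5⟩
  · intro v hv
    refine ⟨a, ha, fun x hx hxΩ => ?_⟩
    have h1 : infDist x (VV P) ≤ a := by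
      have h2 : infDist x (VV P) ≤ dist x v := infDist_le_dist_of_mem hv
      exact h2.trans (le_of_lt (mem_ball.1 hx))
    have h2 := XG_zero P κ a G x h1
    constructor
    · intro w
      simp only [Ml, h2, mul_zero, integral_zero]
    · intro w
      simp only [Nl, h2, Complex.ofReal_zero, mul_zero, integral_zero]

end Pool.Agent.H37.EG
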